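import Pool.Agent.Helper97.Nag.Goals

/-!
# Project NAG, packet BLKK: independence of the columns from the independence of lattice points
-/

set_option autoImplicit false

noncomputable section

namespace Pool.Agent.Helper86.Nag.BLKK

open Pool.Agent.Helper97.Nag

open Pool.Agent.Helper97.Tate (OO KK Indep)

theorem coeff_ENT (k : ℕ) {r p : ℕ} (d m : ℕ) (l : Fin r) (α β j ρ N : ℕ) (g : GG r p) :
    (PowerSeries.coeff N (ENT k d m l α β j ρ : PowerSeries (AddMonoidAlgebra ℚ (GG r p)))).coeff g =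
      (PowerSeries.coeff N (FG k r p d m j ρ)).coeff.sum fun h c =>
        if exG l j h = g then c * ((Ring.choose h.1 α : ℤ) : ℚ) * (j.choose β : ℚ) else 0 := by
  unfold ENT
  rw [PowerSeries.coeff_mk, AddMonoidAlgebra.coeff_finsuppSum, Finsupp.sum_apply]
  refine Finsupp.sum_congr fun h _ => ?_
  rw [AddMonoidAlgebra.coeff_single, Finsupp.single_apply]

theorem exG_inj {r p : ℕ} (l : Fin r) (j : ℕ) {h h' : HH r p} (e : exG l j h = exG l j h') :
    h = h' := by
  unfold exG at e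
  rw [Prod.mk.injEq, Prod.mk.injEq] at e
  obtain ⟨e1, e2, -⟩ := e
  have e3 := congrFun e2 l
  rw [Pi.single_eq_same, Pi.single_eq_same] at e3
  exact Prod.ext e3 e1

theorem coeff_ENT_exG (k : ℕ) {r p : ℕ} (d m : ℕ) (l : Fin r) (α β j ρ N : ℕ) (h : HH r p) :
    (PowerSeries.coeff N (ENT k d m l α β j ρ : PowerSeries (AddMonoidAlgebra ℚ (GG r p)))).coeff
      (exG l j h) =
      (PowerSeries.coeff N (FG k r p d m j ρ)).coeff h * ((Ring.choose h.1 α : ℤ) : ℚ) *
        (j.choose β : ℚ) := by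
  rw [coeff_ENT, Finsupp.sum, Finset.sum_eq_single h]
  · rw [if_pos rfl]
  · intro b _ hb
    rw [if_neg fun e => hb (exG_inj l j e)]
  · intro hh
    rw [Finsupp.notMem_support_iff] at hh
    rw [hh, if_pos rfl, zero_mul, zero_mul]

theorem exists_of_coeff_ENT (k : ℕ) {r p : ℕ} (d m : ℕ) (l : Fin r) (α β j ρ N : ℕ) (g : GG r p)
    (hne : (PowerSeries.coeff N
      (ENT k d m l α β j ρ : PowerSeries (AddMonoidAlgebra ℚ (GG r p)))).coeff g ≠ 0) :
    ∃ h : HH r p, (PowerSeries.coeff N (FG k r p d m j ρ)).coeff h ≠ 0 ∧ exG l j h = g := by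
  rw [coeff_ENT, Finsupp.sum] at hne
  obtain ⟨h, hh, h2⟩ := Finset.exists_ne_zero_of_sum_ne_zero hne
  refine ⟨h, Finsupp.mem_support_iff.1 hh, ?_⟩
  by_contra h3
  rw [if_neg h3] at h2
  exact h2 rfl

theorem bG_exG (k r p : ℕ) (Om eta : ℝ) (l : Fin r) (j : ℕ) (h : HH r p) :
    bG k r p Om eta (exG l j h) = bH k r p Om eta (l : ℕ) h + j * (Om * (l : ℕ) / r) := by
  unfold bG bH exG
  simp only [AddMonoidHom.coe_mk, ZeroHom.coe_mk]
  rw [Finset.sum_eq_single l (f := fun l' => ((Pi.single l h.1 : Fin r → ℤ) l' : ℝ) * _),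
    Finset.sum_eq_single l (f := fun l' => ((Pi.single l (j : ℤ) : Fin r → ℤ) l' : ℝ) * _)]
  · rw [Pi.single_eq_same, Pi.single_eq_same]
    push_cast
    ring
  · intro b _ hb
    rw [Pi.single_eq_of_ne hb]; simp
  · intro h; exact absurd (Finset.mem_univ _) h
  · intro b _ hb
    rw [Pi.single_eq_of_ne hb]; simp
  · intro h; exact absurd (Finset.mem_univ _) h

theorem exists_lower {ι : Type} [Fintype ι] (g : ι → ℝ) (hg : ∀ c, 0 < g c) :
    ∃ e : ℝ, 0 < e ∧ ∀ c, e ≤ g c := by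
  rcases isEmpty_or_nonempty ι with h | h
  · exact ⟨1, one_pos, fun c => (h.false c).elim⟩
  · obtain ⟨c, hc⟩ := Finite.exists_min g
    exact ⟨g c, hg c, hc⟩

theorem t (hD : S_DETR) (hE : S_ENTK) (hX : S_EXF) : S_BLKK := by
  classical
  intro F _ _ k r p d m M Om eta w x y hgen hr hp hrp hk hkm heta hetap hbad C hC hind a ha
  obtain ⟨f, hf, hfe⟩ := hE F k r p d m w x y hgen
  obtain ⟨ta, hta⟩ := hX k r p d m Om eta hr hp hrp hk hkm heta hetap hbad
  choose ist0 hlt hInB using fun c : {c // c ∈ C} => hC c.1 c.2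
  choose om gap N₀ hx hgap hx1 hsg hom hall using
    fun c : {c // c ∈ C} => hta (ist0 c) c.1.1 c.1.2 (hlt c) (hInB c)
  obtain ⟨e, he, heg⟩ := exists_lower gap hgap
  have hr0 : (0 : ℝ) < r := by exact_mod_cast hr
  -- the number delta
  obtain ⟨δ, hδ, hδe⟩ : ∃ δ : ℝ, 0 < δ ∧ δ * r = e := ⟨e / r, by positivity, by field_simp⟩
  have key := hD (GG r p) {ρ : Fin r × Fin M × Fin M // (ρ.2.1 : ℕ) + (ρ.2.2 : ℕ) < M}
    {c // c ∈ C} (Fin r) (bG k r p Om eta) (fun ρ => ρ.1.1) (fun c => ⟨ist0 c, hlt c⟩)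
    (fun ρ c => ENT k d m ρ.1.1 (ρ.1.2.1 : ℕ) (ρ.1.2.2 : ℕ) c.1.1
      (c.1.2 % (kap k d m c.1.1 : ℤ)).toNat)
    (fun c => om c + δ * ist0 c) (fun l => -(ta l + δ * (l : ℕ)))
    (fun c => N₀ c (ist0 c)) (fun c => exG ⟨ist0 c, hlt c⟩ c.1.1 (hx c (ist0 c)))
    (fun ρ c => (PowerSeries.coeff (N₀ c (ist0 c)) (FG k r p d m c.1.1
      (c.1.2 % (kap k d m c.1.1 : ℤ)).toNat)).coeff (hx c (ist0 c)) *
        ((Ring.choose (hx c (ist0 c)).1 (ρ.1.2.1 : ℕ) : ℤ) : ℚ) *
        ((c.1.1.choose (ρ.1.2.2 : ℕ) : ℕ) : ℚ)) ?_ ?_ ?_ ?_ (KK F) f hf (fun c => a c.1) ?_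
  · intro c hc
    exact congrFun key ⟨c, hc⟩
  · -- weights
    rintro ρ c N g hne
    obtain ⟨h, hh, rfl⟩ := exists_of_coeff_ENT k d m ρ.1.1 _ _ c.1.1 _ N g hne
    obtain ⟨A, B, D⟩ := hall c (ρ.1.1 : ℕ) N h ρ.1.1.2 hh
    rw [bG_exG]
    have hl0 : (0 : ℝ) ≤ ((ρ.1.1 : ℕ) : ℝ) := Nat.cast_nonneg _
    by_cases hl : (ρ.1.1 : ℕ) = ist0 c
    · refine ⟨?_, fun heq => ?_⟩
      · rw [← hl]
        linarith
      · rw [← hl] at heq
        obtain ⟨B1, B2⟩ := B (by linarith)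
        have h3 : ρ.1.1 = ⟨ist0 c, hlt c⟩ := Fin.ext hl
        refine ⟨h3, ?_, ?_⟩
        · rw [B1, hl]
        · rw [B2, hl, ← h3]
    · have hstrict : om c + δ * ist0 c + -(ta (ρ.1.1 : ℕ) + δ * ((ρ.1.1 : ℕ) : ℝ)) <
          N + (bH k r p Om eta (ρ.1.1 : ℕ) h + c.1.1 * (Om * ((ρ.1.1 : ℕ) : ℝ) / r)) := by
        rcases hInB c with ⟨h1, -, -⟩ | ⟨h1, h2, -⟩
        · have h4 := D h1 hl
          have h5 : δ * ist0 c < gap c := by
            have h6 : (ist0 c : ℝ) < r := by exact_mod_cast hlt c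
            calc δ * ist0 c < δ * r := mul_lt_mul_of_pos_left h6 hδ
              _ = e := hδe
              _ ≤ gap c := heg c
          have h7 : 0 ≤ δ * ((ρ.1.1 : ℕ) : ℝ) := by positivity
          linarith
        · have h8 : 0 < ((ρ.1.1 : ℕ) : ℝ) := by
            rw [h2] at hl
            exact_mod_cast Nat.pos_of_ne_zero hl
          have h9 : 0 < δ * ((ρ.1.1 : ℕ) : ℝ) := by positivity
          rw [h2, Nat.cast_zero, mul_zero]
          linarith
      refine ⟨hstrict.le, fun heq => ?_⟩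
      exact absurd heq hstrict.ne
  · intro c
    rw [bG_exG]
    have := hom c
    linarith
  · rintro ρ c hpt
    rw [hpt]
    exact coeff_ENT_exG k d m _ _ _ _ _ _ _
  · -- independence of the leading coefficients
    intro b hb
    funext c
    set l : Fin r := ⟨ist0 c, hlt c⟩ with hldef
    set φ : {c // c ∈ C} → ℤ × ℤ := fun c =>
      ((c.1.1 : ℤ), c.1.2 + ((c.1.1 - m : ℕ) : ℤ) * p * ist0 c) with hφ
    set φl : {c // c ∈ C} → ℤ × ℤ := fun c =>
      ((c.1.1 : ℤ), c.1.2 + ((c.1.1 - m : ℕ) : ℤ) * p * (l : ℕ)) with hφl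
    have hinj : Function.Injective φl := by
      rintro ⟨⟨j, n⟩, hc⟩ ⟨⟨j', n'⟩, hc'⟩ h
      simp only [hφl, Prod.mk.injEq] at h
      obtain ⟨h1, h2⟩ := h
      have h3 : j = j' := by exact_mod_cast h1
      subst h3
      have h4 : n = n' := by linarith
      subst h4
      rfl
    set s : Finset {c // c ∈ C} := Finset.univ.filter fun c =>
      (⟨ist0 c, hlt c⟩ : Fin r) = l with hs
    set sg : {c // c ∈ C} → ℚ := fun c => (PowerSeries.coeff (N₀ c (ist0 c)) (FG k r p d m c.1.1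
      (c.1.2 % (kap k d m c.1.1 : ℤ)).toNat)).coeff (hx c (ist0 c)) with hsgdef
    have hI := hind (l : ℕ) l.2 (s.image φl) (by
      intro q hq
      rw [Finset.mem_image] at hq
      obtain ⟨c', hc', rfl⟩ := hq
      rw [Finset.mem_filter] at hc'
      have h5 : ist0 c' = (l : ℕ) := congrArg Fin.val hc'.2
      refine ⟨c'.1, c'.2, ?_, rfl⟩
      rw [← h5]
      exact hInB c')
    have hz := hI (Function.extend φl (fun c => sg c * b c) 0) (by
      intro α β hαβ
      rw [Finset.sum_image fun _ _ _ _ h => hinj h]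
      have h6 := hb ⟨(l, ⟨α, by omega⟩, ⟨β, by omega⟩), hαβ⟩
      simp only at h6
      rw [← h6]
      refine Finset.sum_congr rfl fun c' hc' => ?_
      rw [hinj.extend_apply]
      rw [Finset.mem_filter] at hc'
      have h5 : ist0 c' = (l : ℕ) := congrArg Fin.val hc'.2
      have h7 : (hx c' (ist0 c')).1 = (φl c').2 := by
        rw [hx1 c', h5]
      rw [h7]
      have h8 : (Ring.choose (φl c').1 β : ℤ) = ((c'.1.1.choose β : ℕ) : ℤ) :=
        Ring.choose_natCast c'.1.1 β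
      rw [h8]
      simp only [hsgdef]
      push_cast
      ring)
    have hc0 := hz (φl c) (Finset.mem_image_of_mem _ (Finset.mem_filter.2 ⟨Finset.mem_univ _, rfl⟩))
    rw [hinj.extend_apply] at hc0
    rcases mul_eq_zero.1 hc0 with h9 | h9
    · exact absurd h9 (hsg c)
    · exact h9
  · -- the relations
    intro ρ
    rw [← ha ρ.1.1 (ρ.1.2.1 : ℕ) (ρ.1.2.2 : ℕ) ρ.2, ← Finset.sum_coe_sort C]
    refine Finset.sum_congr rfl fun c _ => ?_
    rw [hfe, mul_comm]
    rcases hInB c with ⟨h1, -, -⟩ | ⟨h1, -, -⟩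
    · right
      have h2 : k * max c.1.1 m < d := by
        rcases le_total c.1.1 m with h | h
        · rw [max_eq_right h]; exact hkm
        · rw [max_eq_left h]; exact h1
      have h3 : 0 < kap k d m c.1.1 := by
        unfold kap
        exact Nat.mul_pos hk (Nat.sub_pos_of_lt h2)
      have h4 : (0 : ℤ) < (kap k d m c.1.1 : ℤ) := by exact_mod_cast h3
      have h5 := Int.emod_lt_of_pos c.1.2 h4
      have h6 := Int.emod_nonneg c.1.2 h4.ne'
      omega
    · exact Or.inl h1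

end Pool.Agent.Helper86.Nag.BLKK
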